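import Pool.Agent.W323.PT.Stm

/-!
# Reduction to compact sets
-/

set_option autoImplicit false
set_option maxHeartbeats 400000

namespace Pool.Agent.W975.PT

open Pool.Agent.W323.PT

theorem cpt : S_Cpt := by
  classical
  intro k F hk hconv hL
  choose! u v huv using hL
  set A : Finset Pt := F.powerset.image u ∪ F.powerset.image v with hA
  have hAu : ∀ G ⊆ F, u G ∈ A := fun G hG =>
    Finset.mem_union_left _ (Finset.mem_image_of_mem _ (Finset.mem_powerset.2 hG))
  have hAv : ∀ G ⊆ F, v G ∈ A := fun G hG =>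
    Finset.mem_union_right _ (Finset.mem_image_of_mem _ (Finset.mem_powerset.2 hG))
  set f : Set Pt → Set Pt := fun K => convexHull ℝ ((A : Set Pt) ∩ K) with hf
  have hsub : ∀ K ∈ F, f K ⊆ K := fun K hK =>
    convexHull_min Set.inter_subset_right (hconv K hK)
  refine ⟨F.image f, ?_, ?_, ?_⟩
  · intro K' hK'
    obtain ⟨K, hK, rfl⟩ := Finset.mem_image.1 hK'
    refine ⟨convex_convexHull ℝ _, ?_, ?_⟩
    · exact Set.Finite.isCompact_convexHull ℝ (A.finite_toSet.subset Set.inter_subset_left)
    · have hG : ({K} : Finset (Set Pt)) ⊆ F := Finset.singleton_subset_iff.2 hK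
      have h1 := huv {K} hG (by simpa using hk) K (Finset.mem_singleton_self K)
      rcases h1 with h1 | h1
      · exact ⟨u {K}, subset_convexHull ℝ _ ⟨hAu _ hG, h1⟩⟩
      · exact ⟨v {K}, subset_convexHull ℝ _ ⟨hAv _ hG, h1⟩⟩
  · intro G' hG' hcard
    have hpre : ∀ K' : Set Pt, K' ∈ G' → ∃ K, K ∈ F ∧ f K = K' := by
      intro K' hK'
      obtain ⟨K, hK, h⟩ := Finset.mem_image.1 (hG' hK')
      exact ⟨K, hK, h⟩
    choose! g hg using hpre
    have hGF : G'.image g ⊆ F := by
      intro K hK
      obtain ⟨K', hK', rfl⟩ := Finset.mem_image.1 hK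
      exact (hg K' hK').1
    refine ⟨u (G'.image g), v (G'.image g), ?_⟩
    intro C hC
    have h1 := huv (G'.image g) hGF (Finset.card_image_le.trans hcard) (g C)
      (Finset.mem_image_of_mem _ hC)
    have h2 := (hg C hC).2
    rcases h1 with h1 | h1
    · left
      rw [← h2]
      exact subset_convexHull ℝ _ ⟨hAu _ hGF, h1⟩
    · right
      rw [← h2]
      exact subset_convexHull ℝ _ ⟨hAv _ hGF, h1⟩
  · intro K hK
    exact ⟨f K, Finset.mem_image_of_mem _ hK, hsub K hK⟩

end Pool.Agent.W975.PT
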